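import Mathlib
open MeasureTheory Set Filter Topology

namespace Pool.Agent.W703.TL

/-- `1_Ω` tiles the line at level one with the translation set `L`: `L` is countable and almost
every real number lies in exactly one of the translates `Ω + l`, `l ∈ L`. -/
def Tiles (Ω L : Set ℝ) : Prop :=
  L.Countable ∧ ∀ᵐ x : ℝ, ∃! l : ℝ, l ∈ L ∧ x - l ∈ Ω

/-- `L` is a finite union of translates of one arithmetic progression. -/
def HasPeriodicStructure (L : Set ℝ) : Prop :=
  ∃ a : ℝ, 0 < a ∧ ∃ N : ℕ, 1 ≤ N ∧ ∃ b : Fin N → ℝ,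
    L = {x | ∃ j : Fin N, ∃ k : ℤ, x = a * k + b j}

/-- some bijection from `L` to `L'` moves every point by at most `ε`. -/
def Within (ε : ℝ) (L L' : Set ℝ) : Prop :=
  ∃ σ : L ≃ L', ∀ l : L, |(σ l : ℝ) - (l : ℝ)| ≤ ε

end Pool.Agent.W703.TL
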