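import Pool.Agent.W703.TL.Defs
open MeasureTheory Set Filter Topology
open scoped ENNReal

namespace Pool.Agent.W703.TL

/-- step 1: the transport map -/
theorem exists_transport {ι : Type*} [Countable ι] (Ω : Set ℝ) (hΩ : MeasurableSet Ω) (p α : ι → ℝ)
    (H1 : ∀ᵐ x : ℝ, ∃! i, x - p i ∈ Ω)
    (H2 : ∀ᵐ x : ℝ, ∃! i, x - (p i + α i) ∈ Ω) :
    ∃ a : ℝ → ℝ, Measurable a ∧ MeasurePreserving (fun x => x + a x) volume volume ∧
      (∀ᵐ x : ℝ, ∀ i, x - p i ∈ Ω → a x = α i) := by
  classical
  let ind : ℝ → ℝ≥0∞ := Ω.indicator (fun _ => 1)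
  have hind : Measurable ind := measurable_const.indicator hΩ
  have single : ∀ (q : ι → ℝ) (x : ℝ), (∃! i, x - q i ∈ Ω) → ∀ i, x - q i ∈ Ω →
      ∀ β : ι → ℝ≥0∞, ∑' i, ind (x - q i) * β i = β i := by
    intro q x hx i hi β
    have hu : ∀ j, j ≠ i → ind (x - q j) * β j = 0 := by
      intro j hj
      have : x - q j ∉ Ω := fun h => hj (hx.unique h hi)
      simp [ind, Set.indicator_of_notMem this]
    rw [tsum_eq_single i hu]
    simp [ind, Set.indicator_of_mem hi]
  let S (β : ι → ℝ≥0∞) (x : ℝ) : ℝ≥0∞ := ∑' i, ind (x - p i) * β i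
  have hS : ∀ β, Measurable (S β) := fun β => by
    refine Measurable.tsum (fun i => ?_)
    exact (hind.comp (measurable_id.sub_const _)).mul_const _
  let a : ℝ → ℝ := fun x => (S (fun i => ENNReal.ofReal (α i)) x).toReal
    - (S (fun i => ENNReal.ofReal (-α i)) x).toReal
  have ha : Measurable a := (hS _).ennreal_toReal.sub (hS _).ennreal_toReal
  have hval : ∀ᵐ x : ℝ, ∀ i, x - p i ∈ Ω → a x = α i := by
    filter_upwards [H1] with x hx i hi
    simp only [a, S]
    rw [single p x hx i hi, single p x hx i hi, ENNReal.toReal_ofReal', ENNReal.toReal_ofReal']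
    exact max_zero_sub_max_neg_zero_eq_self _
  have hT : Measurable (fun x : ℝ => x + a x) := measurable_id.add ha
  refine ⟨a, ha, ⟨hT, ?_⟩, hval⟩
  refine Measure.ext (fun s hs => ?_)
  rw [Measure.map_apply hT hs]
  let g : ℝ → ℝ≥0∞ := s.indicator (fun _ => 1)
  have hg : Measurable g := measurable_const.indicator hs
  have e1 : volume ((fun x => x + a x) ⁻¹' s) = ∫⁻ x, g (x + a x) := by
    have : (fun x => g (x + a x)) = ((fun x => x + a x) ⁻¹' s).indicator (fun _ => 1) := by
      funext x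
      by_cases h : x + a x ∈ s
      · simp [g, Set.indicator, h]
      · simp [g, Set.indicator, h]
    rw [this, lintegral_indicator (hT hs)]
    simp
  have e2 : ∫⁻ x, g (x + a x) = ∫⁻ x, ∑' i, ind (x - p i) * g (x + α i) := by
    refine lintegral_congr_ae ?_
    filter_upwards [H1, hval] with x hx hx'
    obtain ⟨i, hi, -⟩ := id hx
    rw [hx' i hi, single p x hx i hi (fun i => g (x + α i))]
  have e3 : ∫⁻ x, ∑' i, ind (x - p i) * g (x + α i)
      = ∑' i, ∫⁻ x, ind (x - p i) * g (x + α i) :=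
    lintegral_tsum (fun i => ((hind.comp (measurable_id.sub_const _)).mul
      (hg.comp (measurable_id.add_const _))).aemeasurable)
  have e4 : ∀ i, ∫⁻ x, ind (x - p i) * g (x + α i) = ∫⁻ x, ind (x - (p i + α i)) * g x := by
    intro i
    rw [← lintegral_add_right_eq_self (fun x => ind (x - (p i + α i)) * g x) (α i)]
    refine lintegral_congr (fun x => ?_)
    congr 2
    ring
  have e5 : ∑' i, ∫⁻ x, ind (x - (p i + α i)) * g x = ∫⁻ x, ∑' i, ind (x - (p i + α i)) * g x :=
    (lintegral_tsum (fun i => ((hind.comp (measurable_id.sub_const _)).mul hg).aemeasurable)).symm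
  have e6 : ∫⁻ x, ∑' i, ind (x - (p i + α i)) * g x = ∫⁻ x, g x := by
    refine lintegral_congr_ae ?_
    filter_upwards [H2] with x hx
    obtain ⟨i, hi, -⟩ := id hx
    rw [single (fun i => p i + α i) x hx i hi (fun _ => g x)]
  have e7 : ∫⁻ x, g x = volume s := by
    simp only [g]
    rw [lintegral_indicator hs]
    simp
  rw [e1, e2, e3, tsum_congr e4, e5, e6, e7]

def clampf (u l x : ℝ) : ℝ := max 0 (min (x - u) l)

theorem clampf_cont (u l : ℝ) : Continuous (clampf u l) := by
  unfold clampf; fun_prop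

theorem clampf_lip (u l x a : ℝ) :
    (0 ≤ a → 0 ≤ clampf u l (x + a) - clampf u l x ∧ clampf u l (x + a) - clampf u l x ≤ a) ∧
    (a ≤ 0 → a ≤ clampf u l (x + a) - clampf u l x ∧ clampf u l (x + a) - clampf u l x ≤ 0) := by
  unfold clampf
  simp only [max_def, min_def]
  constructor
  · intro h
    constructor <;> split_ifs <;> linarith
  · intro h
    constructor <;> split_ifs <;> linarith

theorem clampf_diff (u l ε a x : ℝ) (hl : 0 ≤ l) (ha : |a| ≤ ε) :
    |clampf u l (x + a) - clampf u l x - (Icc u (u + l)).indicator (fun _ => a) x| ≤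
      ε * (Icc (u - ε) (u + ε)).indicator (fun _ => (1:ℝ)) x
      + ε * (Icc (u + l - ε) (u + l + ε)).indicator (fun _ => (1:ℝ)) x := by
  have hε : 0 ≤ ε := (abs_nonneg a).trans ha
  have hlip := clampf_lip u l x a
  have ha' := abs_le.1 ha
  have i1 : 0 ≤ ε * (Icc (u - ε) (u + ε)).indicator (fun _ => (1:ℝ)) x :=
    mul_nonneg hε (indicator_nonneg (fun _ _ => zero_le_one) _)
  have i2 : 0 ≤ ε * (Icc (u + l - ε) (u + l + ε)).indicator (fun _ => (1:ℝ)) x :=
    mul_nonneg hε (indicator_nonneg (fun _ _ => zero_le_one) _)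
  have bound : |clampf u l (x + a) - clampf u l x - (Icc u (u + l)).indicator (fun _ => a) x| ≤ ε := by
    by_cases hx : x ∈ Icc u (u + l)
    · rw [indicator_of_mem hx]
      rcases le_total 0 a with h | h
      · have := hlip.1 h
        rw [abs_le]; constructor <;> linarith [this.1, this.2, ha'.1, ha'.2]
      · have := hlip.2 h
        rw [abs_le]; constructor <;> linarith [this.1, this.2, ha'.1, ha'.2]
    · rw [indicator_of_notMem hx]
      rcases le_total 0 a with h | h
      · have := hlip.1 h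
        rw [abs_le]; constructor <;> linarith [this.1, this.2, ha'.1, ha'.2]
      · have := hlip.2 h
        rw [abs_le]; constructor <;> linarith [this.1, this.2, ha'.1, ha'.2]
  by_cases h1 : x ∈ Icc (u - ε) (u + ε)
  · rw [indicator_of_mem h1] at i1 ⊢
    linarith
  by_cases h2 : x ∈ Icc (u + l - ε) (u + l + ε)
  · rw [indicator_of_mem h2] at i2 ⊢
    linarith
  have h0 : clampf u l (x + a) - clampf u l x - (Icc u (u + l)).indicator (fun _ => a) x = 0 := by
    rw [mem_Icc, not_and_or, not_le, not_le] at h1 h2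
    unfold clampf
    rcases h1 with h1 | h1
    · have hx : x ∉ Icc u (u + l) := fun h => by have := h.1; linarith
      rw [indicator_of_notMem hx, min_eq_left (by linarith), min_eq_left (by linarith),
        max_eq_left (by linarith), max_eq_left (by linarith)]
      ring
    · rcases h2 with h2 | h2
      · have hx : x ∈ Icc u (u + l) := ⟨by linarith, by linarith⟩
        rw [indicator_of_mem hx, min_eq_left (by linarith), min_eq_left (by linarith),
          max_eq_right (by linarith), max_eq_right (by linarith)]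
        ring
      · have hx : x ∉ Icc u (u + l) := fun h => by have := h.2; linarith
        rw [indicator_of_notMem hx, min_eq_right (by linarith), min_eq_right (by linarith)]
        ring
  rw [h0, abs_zero]
  linarith


theorem avg_compare (a : ℝ → ℝ) (hT : MeasurePreserving (fun x => x + a x) volume volume)
    (ha : Measurable a)
    (ε : ℝ) (hε0 : 0 ≤ ε) (hε : ∀ᵐ x : ℝ, |a x| ≤ ε) (u v l : ℝ) (hl : 0 < l) :
    |(∫ x in Icc u (u + l), a x) - ∫ x in Icc v (v + l), a x| ≤ 8 * ε ^ 2 := by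
  let Ψ : ℝ → ℝ := fun x => clampf u l x - clampf v l x
  have hc : Continuous Ψ := (clampf_cont u l).sub (clampf_cont v l)
  have hcs : HasCompactSupport Ψ := by
    refine HasCompactSupport.intro (isCompact_Icc (a := min u v) (b := max u v + l)) ?_
    intro x hx
    rw [mem_Icc, not_and_or, not_le, not_le] at hx
    simp only [Ψ, clampf]
    rcases hx with hx | hx
    · have h1 : x < u := lt_of_lt_of_le hx (min_le_left _ _)
      have h2 : x < v := lt_of_lt_of_le hx (min_le_right _ _)
      rw [min_eq_left (by linarith), min_eq_left (by linarith), max_eq_left (by linarith),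
        max_eq_left (by linarith), sub_self]
    · have h1 : u + l < x := by linarith [le_max_left u v]
      have h2 : v + l < x := by linarith [le_max_right u v]
      rw [min_eq_right (by linarith), min_eq_right (by linarith), sub_self]
  have hi : Integrable Ψ := hc.integrable_of_hasCompactSupport hcs
  have hi2 : Integrable (fun x => Ψ (x + a x)) :=
    (hT.integrable_comp hc.aestronglyMeasurable).2 hi
  have hint : ∫ x, Ψ (x + a x) = ∫ x, Ψ x := by
    have := integral_map (μ := volume) (φ := fun x => x + a x) hT.measurable.aemeasurable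
      (f := Ψ) hc.aestronglyMeasurable
    rw [hT.map_eq] at this
    exact this.symm
  have hfin : ∀ w : ℝ, Integrable ((Icc w (w + l)).indicator a) := by
    intro w
    rw [integrable_indicator_iff measurableSet_Icc]
    refine Measure.integrableOn_of_bounded (M := ε) ?_ ha.aestronglyMeasurable ?_
    · rw [Real.volume_Icc]; exact ENNReal.ofReal_ne_top
    · filter_upwards [ae_restrict_of_ae hε] with x hx
      rw [Real.norm_eq_abs]; exact hx
  have hone : ∀ s t : ℝ, Integrable ((Icc s t).indicator (fun _ => (1:ℝ))) := by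
    intro s t
    rw [integrable_indicator_iff measurableSet_Icc]
    refine integrableOn_const ?_
    rw [Real.volume_Icc]; exact ENNReal.ofReal_ne_top
  let E : ℝ → ℝ := fun x => (Ψ (x + a x) - Ψ x)
    - ((Icc u (u + l)).indicator a x - (Icc v (v + l)).indicator a x)
  let B : ℝ → ℝ := fun x =>
    (ε * (Icc (u - ε) (u + ε)).indicator (fun _ => (1:ℝ)) x
      + ε * (Icc (u + l - ε) (u + l + ε)).indicator (fun _ => (1:ℝ)) x)
    + (ε * (Icc (v - ε) (v + ε)).indicator (fun _ => (1:ℝ)) x
      + ε * (Icc (v + l - ε) (v + l + ε)).indicator (fun _ => (1:ℝ)) x)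
  have hB : Integrable B := by
    refine Integrable.add (Integrable.add ?_ ?_) (Integrable.add ?_ ?_) <;>
      exact (hone _ _).const_mul ε
  have hind : ∀ (s : Set ℝ) (x : ℝ), s.indicator a x = s.indicator (fun _ => a x) x := by
    intro s x
    by_cases h : x ∈ s
    · rw [indicator_of_mem h, indicator_of_mem h]
    · rw [indicator_of_notMem h, indicator_of_notMem h]
  have hEB : ∀ᵐ x : ℝ, ‖E x‖ ≤ B x := by
    filter_upwards [hε] with x hx
    have h1 := clampf_diff u l ε (a x) x hl.le hx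
    have h2 := clampf_diff v l ε (a x) x hl.le hx
    rw [Real.norm_eq_abs]
    have e : E x = (clampf u l (x + a x) - clampf u l x - (Icc u (u + l)).indicator (fun _ => a x) x)
        - (clampf v l (x + a x) - clampf v l x - (Icc v (v + l)).indicator (fun _ => a x) x) := by
      simp only [E, Ψ, hind]; ring
    rw [e]
    exact (abs_sub _ _).trans (add_le_add h1 h2)
  have hEint : ∫ x, E x = -((∫ x in Icc u (u + l), a x) - ∫ x in Icc v (v + l), a x) := by
    have h1 : ∫ x, E x = (∫ x, (Ψ (x + a x) - Ψ x))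
        - ∫ x, ((Icc u (u + l)).indicator a x - (Icc v (v + l)).indicator a x) :=
      integral_sub (f := fun x => Ψ (x + a x) - Ψ x)
        (g := fun x => (Icc u (u + l)).indicator a x - (Icc v (v + l)).indicator a x)
        (hi2.sub hi) ((hfin u).sub (hfin v))
    have h2 : ∫ x, (Ψ (x + a x) - Ψ x) = (∫ x, Ψ (x + a x)) - ∫ x, Ψ x := integral_sub hi2 hi
    have h3 : ∫ x, ((Icc u (u + l)).indicator a x - (Icc v (v + l)).indicator a x)
        = (∫ x, (Icc u (u + l)).indicator a x) - ∫ x, (Icc v (v + l)).indicator a x :=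
      integral_sub (hfin u) (hfin v)
    rw [h1, h2, h3, hint, integral_indicator measurableSet_Icc,
      integral_indicator measurableSet_Icc]
    ring
  have hBint : ∫ x, B x = 8 * ε ^ 2 := by
    have hI : ∀ c : ℝ, ∫ x, ε * (Icc (c - ε) (c + ε)).indicator (fun _ => (1:ℝ)) x = 2 * ε ^ 2 := by
      intro c
      rw [integral_const_mul, integral_indicator measurableSet_Icc]
      simp only [integral_const, smul_eq_mul, mul_one]
      rw [measureReal_restrict_apply MeasurableSet.univ, univ_inter, Real.volume_real_Icc_of_le (by linarith)]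
      ring
    simp only [B]
    rw [integral_add, integral_add, integral_add, hI, hI, hI, hI]
    · ring
    all_goals first
      | exact (hone _ _).const_mul ε
      | exact ((hone _ _).const_mul ε).add ((hone _ _).const_mul ε)
  have := norm_integral_le_of_norm_le hB hEB
  rw [hEint, hBint, norm_neg, Real.norm_eq_abs] at this
  exact this



/-- average of the transport on the dense interval of one tile -/
theorem local_avg {ι : Type*} (Ω : Set ℝ) (hΩ : MeasurableSet Ω) (p α : ι → ℝ)
    (H1 : ∀ᵐ x : ℝ, ∃! i, x - p i ∈ Ω) (a : ℝ → ℝ) (ha : Measurable a)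
    (hval : ∀ᵐ x : ℝ, ∀ i, x - p i ∈ Ω → a x = α i)
    (u l κ δ : ℝ) (hl : 0 < l) (hκ : volume (Icc u (u + l) \ Ω) ≤ ENNReal.ofReal (κ * l)) (hκ0 : 0 ≤ κ)
    (i : ι) (hδ : ∀ j, |α j - α i| ≤ δ) :
    |(∫ x in Icc (u + p i) (u + p i + l), a x) - l * α i| ≤ δ * (κ * l) := by
  have hδ0 : 0 ≤ δ := (abs_nonneg _).trans (hδ i)
  set J := Icc (u + p i) (u + p i + l) with hJ
  have hJm : MeasurableSet J := measurableSet_Icc
  have hJv : volume J = ENNReal.ofReal l := by rw [hJ, Real.volume_Icc]; congr 1; ring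
  have hJf : volume J ≠ ⊤ := by rw [hJv]; exact ENNReal.ofReal_ne_top
  let W : Set ℝ := {x | x - p i ∈ Ω}
  have hW : MeasurableSet W := (measurable_id.sub_const (p i)) hΩ
  have hab : ∀ᵐ x ∂(volume.restrict J), ‖a x - α i‖ ≤ δ * Wᶜ.indicator (fun _ => (1:ℝ)) x := by
    refine ae_restrict_of_ae ?_
    filter_upwards [H1, hval] with x hx hx'
    obtain ⟨j, hj, -⟩ := id hx
    by_cases h : x ∈ W
    · rw [hx' i h, sub_self, norm_zero]
      exact mul_nonneg hδ0 (indicator_nonneg (fun _ _ => zero_le_one) _)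
    · rw [indicator_of_mem (show x ∈ Wᶜ from h), mul_one, hx' j hj, Real.norm_eq_abs]
      exact hδ j
  have hai : IntegrableOn a J := by
    refine Measure.integrableOn_of_bounded (M := δ + |α i|) hJf ha.aestronglyMeasurable ?_
    filter_upwards [ae_restrict_of_ae H1, ae_restrict_of_ae hval] with x hx hx'
    obtain ⟨j, hj, -⟩ := id hx
    rw [hx' j hj, Real.norm_eq_abs]
    calc |α j| = |(α j - α i) + α i| := by ring_nf
      _ ≤ |α j - α i| + |α i| := abs_add_le _ _
      _ ≤ δ + |α i| := by linarith [hδ j]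
  have hci : IntegrableOn (fun _ : ℝ => α i) J := integrableOn_const hJf
  have h1 : (∫ x in J, a x) - l * α i = ∫ x in J, (a x - α i) := by
    rw [integral_sub hai hci]
    congr 1
    rw [setIntegral_const, smul_eq_mul, measureReal_def, hJv, ENNReal.toReal_ofReal hl.le]
  have hBi : Integrable (fun x => δ * Wᶜ.indicator (fun _ => (1:ℝ)) x) (volume.restrict J) := by
    refine Integrable.const_mul ?_ δ
    rw [integrable_indicator_iff hW.compl]
    refine integrableOn_const ?_
    rw [Measure.restrict_apply hW.compl]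
    exact ne_top_of_le_ne_top hJf (measure_mono inter_subset_right)
  have h2 := norm_integral_le_of_norm_le hBi hab
  rw [h1, ← Real.norm_eq_abs]
  refine h2.trans ?_
  rw [integral_const_mul, integral_indicator hW.compl]
  refine mul_le_mul_of_nonneg_left ?_ hδ0
  rw [integral_const, smul_eq_mul, mul_one, measureReal_def, Measure.restrict_apply_univ,
    Measure.restrict_apply hW.compl]
  have e : volume (Wᶜ ∩ J) = volume (Icc u (u + l) \ Ω) := by
    have : Wᶜ ∩ J = (fun x => x + (- p i)) ⁻¹' (Icc u (u + l) \ Ω) := by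
      ext x
      simp only [W, hJ, mem_inter_iff, mem_compl_iff, mem_ofPred_eq, mem_Icc, mem_preimage, Set.mem_sdiff]
      constructor
      · rintro ⟨h1, h2, h3⟩
        exact ⟨⟨by linarith, by linarith⟩, by rwa [← sub_eq_add_neg]⟩
      · rintro ⟨⟨h1, h2⟩, h3⟩
        exact ⟨by rwa [← sub_eq_add_neg] at h3, by linarith, by linarith⟩
    rw [this, measure_preimage_add_right]
  rw [e]
  refine (ENNReal.toReal_mono ENNReal.ofReal_ne_top hκ).trans ?_
  rw [ENNReal.toReal_ofReal (mul_nonneg hκ0 hl.le)]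

/-- one step of the contraction -/
theorem contraction {ι : Type*} [Countable ι] (Ω : Set ℝ) (hΩ : MeasurableSet Ω) (p α : ι → ℝ)
    (H1 : ∀ᵐ x : ℝ, ∃! i, x - p i ∈ Ω)
    (H2 : ∀ᵐ x : ℝ, ∃! i, x - (p i + α i) ∈ Ω)
    (u l δ : ℝ) (hl : 0 < l) (hκ : volume (Icc u (u + l) \ Ω) ≤ ENNReal.ofReal (1/8 * l))
    (hδ : ∀ i j, |α i - α j| ≤ δ) (hδl : δ ≤ l / 16) :
    ∀ i j, |α i - α j| ≤ 3/4 * δ := by
  intro i j
  have hδ0 : 0 ≤ δ := (abs_nonneg _).trans (hδ i j)
  let α' : ι → ℝ := fun k => α k - α j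
  have H2' : ∀ᵐ x : ℝ, ∃! i, x - (p i + α' i) ∈ Ω := by
    have hq : Measure.QuasiMeasurePreserving (fun x : ℝ => x + α j) volume volume :=
      (measurePreserving_add_right volume (α j)).quasiMeasurePreserving
    have := hq.ae H2
    filter_upwards [this] with x hx
    have : ∀ k, x + α j - (p k + α k) = x - (p k + α' k) := fun k => by simp only [α']; ring
    simpa only [this] using hx
  obtain ⟨a, ha, hT, hval⟩ := exists_transport Ω hΩ p α' H1 H2'
  have hd : ∀ k m, |α' k - α' m| ≤ δ := fun k m => by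
    have := hδ k m
    simp only [α']
    rwa [show α k - α j - (α m - α j) = α k - α m by ring]
  have hab : ∀ᵐ x : ℝ, |a x| ≤ δ := by
    filter_upwards [H1, hval] with x hx hx'
    obtain ⟨k, hk, -⟩ := id hx
    rw [hx' k hk]
    exact hδ k j
  have h1 := local_avg Ω hΩ p α' H1 a ha hval u l (1/8) δ hl hκ (by norm_num) i (fun k => hd k i)
  have h2 := local_avg Ω hΩ p α' H1 a ha hval u l (1/8) δ hl hκ (by norm_num) j (fun k => hd k j)
  have h3 := avg_compare a hT ha δ hδ0 hab (u + p i) (u + p j) l hl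
  have h4 : l * |α' i - α' j| ≤ 2 * (δ * (1/8 * l)) + 8 * δ ^ 2 := by
    rw [← abs_of_pos hl, ← abs_mul, abs_of_pos hl]
    have e : l * (α' i - α' j) = -((∫ x in Icc (u + p i) (u + p i + l), a x) - l * α' i)
        + ((∫ x in Icc (u + p j) (u + p j + l), a x) - l * α' j)
        + ((∫ x in Icc (u + p i) (u + p i + l), a x) - ∫ x in Icc (u + p j) (u + p j + l), a x) := by
      ring
    rw [e]
    refine (abs_add_le _ _).trans ?_
    refine (add_le_add_left (abs_add_le _ _) _).trans ?_
    rw [abs_neg]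
    linarith
  have h5 : 8 * δ ^ 2 ≤ (1/2) * δ * l := by nlinarith
  have h6 : l * |α' i - α' j| ≤ l * (3/4 * δ) := by linarith
  have h7 := le_of_mul_le_mul_left h6 hl
  simpa [α'] using h7

/-- rigidity -/
theorem rigidity_aux {ι : Type*} [Countable ι] (Ω : Set ℝ) (hΩ : MeasurableSet Ω) (p α : ι → ℝ)
    (H1 : ∀ᵐ x : ℝ, ∃! i, x - p i ∈ Ω)
    (H2 : ∀ᵐ x : ℝ, ∃! i, x - (p i + α i) ∈ Ω)
    (u l : ℝ) (hl : 0 < l) (hκ : volume (Icc u (u + l) \ Ω) ≤ ENNReal.ofReal (1/8 * l))
    (hα : ∀ i, |α i| ≤ l / 32) :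
    ∀ i j, α i = α j := by
  have hn : ∀ n : ℕ, ∀ i j, |α i - α j| ≤ (3/4) ^ n * (l / 16) := by
    intro n
    induction n with
    | zero =>
      intro i j
      have := abs_sub (α i) (α j)
      rw [pow_zero, one_mul]
      linarith [hα i, hα j]
    | succ n ih =>
      intro i j
      have hle : (3/4 : ℝ) ^ n * (l / 16) ≤ l / 16 := by
        have : (3/4 : ℝ) ^ n ≤ 1 := pow_le_one₀ (by norm_num) (by norm_num)
        nlinarith
      have := contraction Ω hΩ p α H1 H2 u l _ hl hκ ih hle i j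
      rw [pow_succ]
      linarith
  intro i j
  have hlim : Tendsto (fun n : ℕ => (3/4 : ℝ) ^ n * (l / 16)) atTop (𝓝 (0 * (l / 16))) :=
    (tendsto_pow_atTop_nhds_zero_of_lt_one (by norm_num) (by norm_num)).mul_const _
  rw [zero_mul] at hlim
  have := ge_of_tendsto' hlim (fun n => hn n i j)
  have h0 : |α i - α j| = 0 := le_antisymm this (abs_nonneg _)
  exact sub_eq_zero.1 (abs_eq_zero.1 h0)


/-- an interval in which `Ω` has relative density at least `7/8` -/
theorem exists_dense_interval (Ω : Set ℝ) (hΩ : MeasurableSet Ω) (h0 : 0 < volume Ω) :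
    ∃ u l : ℝ, 0 < l ∧ volume (Icc u (u + l) \ Ω) ≤ ENNReal.ofReal (1/8 * l) := by
  have h1 := Besicovitch.ae_tendsto_measure_inter_div (volume : Measure ℝ) Ω
  have hne : (volume.restrict Ω) ≠ 0 := by
    intro h
    rw [Measure.restrict_eq_zero] at h
    exact h0.ne' h
  have : (ae (volume.restrict Ω)).NeBot := ae_neBot.2 hne
  obtain ⟨x, hx⟩ := h1.exists
  have h2 : ∀ᶠ r in 𝓝[>] (0:ℝ), (7/8 : ℝ≥0∞) <
      volume (Ω ∩ Metric.closedBall x r) / volume (Metric.closedBall x r) := by
    refine hx.eventually_const_lt ?_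
    rw [ENNReal.div_lt_iff (Or.inl (by norm_num)) (Or.inl (by norm_num))]
    norm_num
  obtain ⟨r, hr, hr0⟩ := (h2.and self_mem_nhdsWithin).exists
  have hr0' : (0:ℝ) < r := hr0
  refine ⟨x - r, 2 * r, by positivity, ?_⟩
  have hball : Metric.closedBall x r = Icc (x - r) (x - r + 2 * r) := by
    rw [Real.closedBall_eq_Icc]; congr 1; ring
  have hvol : volume (Metric.closedBall x r) = ENNReal.ofReal (2 * r) := Real.volume_closedBall x r
  rw [hball] at hr hvol
  rw [hvol] at hr
  have hpos : ENNReal.ofReal (2 * r) ≠ 0 := by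
    rw [Ne, ENNReal.ofReal_eq_zero, not_le]; positivity
  rw [ENNReal.lt_div_iff_mul_lt (Or.inl hpos) (Or.inl ENNReal.ofReal_ne_top)] at hr
  have hfin : volume (Ω ∩ Icc (x - r) (x - r + 2 * r)) ≠ ⊤ := by
    refine ne_top_of_le_ne_top ?_ (measure_mono inter_subset_right)
    rw [hvol]; exact ENNReal.ofReal_ne_top
  have hsplit := measure_inter_add_sdiff (μ := volume) (Icc (x - r) (x - r + 2 * r)) hΩ
  rw [hvol, inter_comm] at hsplit
  have e1 : (7/8 : ℝ≥0∞) * ENNReal.ofReal (2 * r) + ENNReal.ofReal (1/8 * (2 * r))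
      = ENNReal.ofReal (2 * r) := by
    have : (7/8 : ℝ≥0∞) = ENNReal.ofReal (7/8) := by
      rw [ENNReal.ofReal_div_of_pos (by norm_num)]
      norm_num
    rw [this, ← ENNReal.ofReal_mul (by norm_num), ← ENNReal.ofReal_add (by positivity) (by positivity)]
    congr 1; ring
  have h3 : volume (Ω ∩ Icc (x - r) (x - r + 2 * r)) + volume (Icc (x - r) (x - r + 2 * r) \ Ω)
      ≤ volume (Ω ∩ Icc (x - r) (x - r + 2 * r)) + ENNReal.ofReal (1/8 * (2 * r)) := by
    rw [hsplit, ← e1]
    gcongr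
  exact (ENNReal.add_le_add_iff_left hfin).1 h3

theorem tiles_iff_subtype {Ω L : Set ℝ} (h : Tiles Ω L) :
    ∀ᵐ x : ℝ, ∃! i : L, x - (i : ℝ) ∈ Ω := by
  filter_upwards [h.2] with x hx
  obtain ⟨l, ⟨hl, hl'⟩, hu⟩ := hx
  refine ⟨⟨l, hl⟩, hl', ?_⟩
  rintro ⟨m, hm⟩ hm'
  exact Subtype.ext (hu m ⟨hm, hm'⟩)

theorem rigidity (Ω : Set ℝ) (hΩ : MeasurableSet Ω) (u l : ℝ) (hl : 0 < l)
    (hκ : volume (Icc u (u + l) \ Ω) ≤ ENNReal.ofReal (1/8 * l))
    (L L' : Set ℝ) (hL : Tiles Ω L) (hL' : Tiles Ω L') (hw : Within (l / 32) L L') :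
    ∃ c : ℝ, |c| ≤ l / 32 ∧ L' = {x | x - c ∈ L} := by
  obtain ⟨σ, hσ⟩ := hw
  have : Countable L := hL.1.to_subtype
  have H1 := tiles_iff_subtype hL
  have H2' := tiles_iff_subtype hL'
  let α : L → ℝ := fun i => (σ i : ℝ) - (i : ℝ)
  have H2 : ∀ᵐ x : ℝ, ∃! i : L, x - ((i : ℝ) + α i) ∈ Ω := by
    filter_upwards [H2'] with x hx
    obtain ⟨m, hm, hu⟩ := hx
    refine ⟨σ.symm m, ?_, ?_⟩
    · have : ((σ.symm m : L) : ℝ) + α (σ.symm m) = m := by simp [α]
      simpa only [this] using hm
    · intro i hi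
      have e : ((i : ℝ) + α i) = (σ i : ℝ) := by simp [α]
      have := hu (σ i) (by simpa only [e] using hi)
      rw [← this, Equiv.symm_apply_apply]
  have hc := rigidity_aux Ω hΩ (fun i : L => (i : ℝ)) α H1 H2 u l hl hκ hσ
  -- `L` is not empty
  have hne : Nonempty L := by
    obtain ⟨x, hx⟩ := H1.exists
    obtain ⟨i, -⟩ := hx.exists
    exact ⟨i⟩
  obtain ⟨i0⟩ := hne
  refine ⟨α i0, hσ i0, ?_⟩
  ext x
  constructor
  · intro hx
    have h1 : ((σ.symm ⟨x, hx⟩ : L) : ℝ) = x - α i0 := by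
      rw [hc i0 (σ.symm ⟨x, hx⟩)]
      simp [α]
    show x - α i0 ∈ L
    rw [← h1]
    exact (σ.symm ⟨x, hx⟩).2
  · intro hx
    have hx' : x - α i0 ∈ L := hx
    have h1 : (σ ⟨x - α i0, hx'⟩ : ℝ) = x := by
      have := hc ⟨x - α i0, hx'⟩ i0
      simp only [α] at this ⊢
      linarith
    rw [← h1]
    exact (σ ⟨x - α i0, hx'⟩).2

theorem mem_add_int {L : Set ℝ} {q : ℝ} (hq : ∀ x, x ∈ L ↔ x + q ∈ L) (k : ℤ) :
    ∀ x, x ∈ L ↔ x + q * k ∈ L := by
  have hnat : ∀ n : ℕ, ∀ x, x ∈ L ↔ x + q * n ∈ L := by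
    intro n
    induction n with
    | zero => intro x; simp
    | succ n ih =>
      intro x
      rw [ih x, hq (x + q * n)]
      have : x + q * (n:ℝ) + q = x + q * ((n + 1 : ℕ) : ℝ) := by push_cast; ring
      rw [this]
  intro x
  rcases Int.eq_nat_or_neg k with ⟨n, rfl | rfl⟩
  · simpa using hnat n x
  · rw [hnat n (x + q * ((-(n:ℤ) : ℤ) : ℝ))]
    have : x + q * ((-(n:ℤ) : ℤ) : ℝ) + q * n = x := by push_cast; ring
    rw [this]

theorem periodic_structure (Ω : Set ℝ) (hΩ : MeasurableSet Ω) (h0 : 0 < volume Ω) (L : Set ℝ)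
    (hL : Tiles Ω L) (q : ℝ) (hq0 : 0 < q) (hq : ∀ x, x ∈ L ↔ x + q ∈ L) :
    HasPeriodicStructure L := by
  classical
  -- a bounded piece of positive measure
  obtain ⟨M, hM⟩ : ∃ M : ℕ, 0 < volume (Ω ∩ Icc (-(M:ℝ)) M) := by
    by_contra hcon
    push Not at hcon
    have h1 : Ω ⊆ ⋃ M : ℕ, Ω ∩ Icc (-(M:ℝ)) M := by
      intro x hx
      obtain ⟨M, hM⟩ := exists_nat_ge |x|
      refine mem_iUnion.2 ⟨M, hx, ?_⟩
      rw [mem_Icc]; exact abs_le.1 hM
    have h2 : volume (⋃ M : ℕ, Ω ∩ Icc (-(M:ℝ)) M) = 0 := by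
      rw [measure_iUnion_null_iff]
      intro M
      exact le_antisymm (hcon M) bot_le
    exact h0.ne' (measure_mono_null h1 h2)
  set Ωb := Ω ∩ Icc (-(M:ℝ)) M with hΩb
  have hΩbm : MeasurableSet Ωb := hΩ.inter measurableSet_Icc
  have hΩbf : volume Ωb ≠ ⊤ := by
    refine ne_top_of_le_ne_top ?_ (measure_mono inter_subset_right)
    rw [Real.volume_Icc]; exact ENNReal.ofReal_ne_top
  -- counting
  have hcount : ∀ G : Finset ℝ, (G : Set ℝ) ⊆ L ∩ Ico 0 q →
      (G.card : ℝ≥0∞) * volume Ωb ≤ ENNReal.ofReal (2 * M + q) := by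
    intro G hG
    let ind : ℝ → ℝ≥0∞ := Ωb.indicator (fun _ => 1)
    have hind : Measurable ind := measurable_const.indicator hΩbm
    have e1 : (G.card : ℝ≥0∞) * volume Ωb = ∑ g ∈ G, ∫⁻ x, ind (x - g) := by
      have : ∀ g ∈ G, ∫⁻ x, ind (x - g) = volume Ωb := by
        intro g _
        rw [lintegral_sub_right_eq_self ind g]
        simp only [ind]
        rw [lintegral_indicator hΩbm]
        simp
      rw [Finset.sum_congr rfl this, Finset.sum_const, nsmul_eq_mul]
    have e1' : ∑ g ∈ G, ∫⁻ x, ind (x - g) = ∫⁻ x, ∑ g ∈ G, ind (x - g) :=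
      (lintegral_finsetSum G (f := fun g x => ind (x - g))
        (fun g _ => hind.comp (measurable_id.sub_const g))).symm
    rw [e1, e1']
    have e2 : ENNReal.ofReal (2 * M + q)
        = ∫⁻ x, (Icc (-(M:ℝ)) (M + q)).indicator (fun _ => (1:ℝ≥0∞)) x := by
      rw [lintegral_indicator measurableSet_Icc]
      simp only [lintegral_const, Measure.restrict_apply MeasurableSet.univ, univ_inter, one_mul,
        Real.volume_Icc]
      congr 1; ring
    rw [e2]
    refine lintegral_mono_ae ?_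
    filter_upwards [hL.2] with x hx
    by_cases hex : ∃ g ∈ G, x - g ∈ Ωb
    · obtain ⟨g, hg, hgx⟩ := hex
      have hgL := hG hg
      have hsum : ∑ g' ∈ G, ind (x - g') = ind (x - g) := by
        refine Finset.sum_eq_single g ?_ (fun h => absurd hg h)
        intro g' hg' hne
        simp only [ind]
        rw [indicator_of_notMem]
        intro hmem
        exact hne (hx.unique ⟨(hG hg').1, hmem.1⟩ ⟨hgL.1, hgx.1⟩)
      have hxI : x ∈ Icc (-(M:ℝ)) (M + q) := by
        have h1 := hgx.2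
        have h2 := hgL.2
        rw [mem_Icc] at h1 ⊢
        rw [mem_Ico] at h2
        constructor <;> linarith [h1.1, h1.2, h2.1, h2.2]
      rw [hsum, indicator_of_mem hxI]
      simp only [ind]
      rw [indicator_of_mem hgx]
    · push Not at hex
      have hsum : ∑ g' ∈ G, ind (x - g') = 0 := by
        refine Finset.sum_eq_zero ?_
        intro g' hg'
        simp only [ind]
        rw [indicator_of_notMem (hex g' hg')]
      rw [hsum]
      exact bot_le
  have hfin : (L ∩ Ico 0 q).Finite := by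
    by_contra hinf
    have hinf' : (L ∩ Ico 0 q).Infinite := hinf
    obtain ⟨n, hn⟩ := ENNReal.exists_nat_mul_gt hM.ne' (ENNReal.ofReal_ne_top (r := 2 * M + q))
    obtain ⟨G, hG, hGc⟩ := hinf'.exists_subset_card_eq n
    have := hcount G hG
    rw [hGc] at this
    exact absurd this (not_le.2 hn)
  have hadd := fun k => mem_add_int hq k
  -- nonempty
  obtain ⟨x0, hx0⟩ := hL.2.exists
  obtain ⟨l0, ⟨hl0, -⟩, -⟩ := hx0
  have hred : ∀ x ∈ L, x - q * ⌊x / q⌋ ∈ L ∩ Ico 0 q := by
    intro x hx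
    refine ⟨?_, ?_⟩
    · rw [hadd ⌊x / q⌋ (x - q * ⌊x / q⌋)]
      simpa using hx
    · have h1 := Int.floor_le (x / q)
      have h2 := Int.lt_floor_add_one (x / q)
      rw [le_div_iff₀ hq0] at h1
      rw [div_lt_iff₀ hq0] at h2
      rw [mem_Ico]
      constructor <;> nlinarith
  let F : Finset ℝ := hfin.toFinset
  have hF : ∀ x, x ∈ F ↔ x ∈ L ∩ Ico 0 q := fun x => hfin.mem_toFinset
  have hcard : 1 ≤ F.card := Finset.card_pos.2 ⟨_, (hF _).2 (hred l0 hl0)⟩
  refine ⟨q, hq0, F.card, hcard, fun j => (F.equivFin.symm j : ℝ), ?_⟩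
  ext x
  constructor
  · intro hx
    refine ⟨F.equivFin ⟨x - q * ⌊x / q⌋, (hF _).2 (hred x hx)⟩, ⌊x / q⌋, ?_⟩
    simp
  · rintro ⟨j, k, hx⟩
    have h1 : ((F.equivFin.symm j : F) : ℝ) ∈ L := ((hF _).1 (F.equivFin.symm j).2).1
    rw [hx, add_comm]
    exact (hadd k _).1 h1

theorem almost_period (Ω : Set ℝ) (hΩ : MeasurableSet Ω) (h0 : 0 < volume Ω) (u l : ℝ) (hl : 0 < l)
    (hκ : volume (Icc u (u + l) \ Ω) ≤ ENNReal.ofReal (1/8 * l))
    (L : Set ℝ) (hL : Tiles Ω L) (τ : ℝ) (hτ : l / 32 < |τ|)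
    (hw : Within (l / 32) L {x | x - τ ∈ L}) : HasPeriodicStructure L := by
  have hL' : Tiles Ω {x | x - τ ∈ L} := by
    refine ⟨?_, ?_⟩
    · have : {x | x - τ ∈ L} = (fun x => x + τ) '' L := by
        ext x
        constructor
        · intro hx
          exact ⟨x - τ, hx, by ring⟩
        · rintro ⟨y, hy, rfl⟩
          show y + τ - τ ∈ L
          simpa using hy
      rw [this]
      exact hL.1.image _
    · have hq : Measure.QuasiMeasurePreserving (fun x : ℝ => x + (-τ)) volume volume :=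
        (measurePreserving_add_right volume (-τ)).quasiMeasurePreserving
      have := hq.ae hL.2
      filter_upwards [this] with x hx
      obtain ⟨m, ⟨hm, hm'⟩, hu⟩ := hx
      refine ⟨m + τ, ⟨?_, ?_⟩, ?_⟩
      · show m + τ - τ ∈ L
        simpa using hm
      · have : x - (m + τ) = x + -τ - m := by ring
        rw [this]; exact hm'
      · rintro y ⟨hy, hy'⟩
        have hy1 : y - τ ∈ L := hy
        have : y - τ = m := hu (y - τ) ⟨hy1, by
          have : x + -τ - (y - τ) = x - y := by ring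
          rw [this]; exact hy'⟩
        linarith
  obtain ⟨c, hc, hc'⟩ := rigidity Ω hΩ u l hl hκ L _ hL hL' hw
  have hs : ∀ x, x - τ ∈ L ↔ x - c ∈ L := fun x => by
    have : x ∈ {x | x - τ ∈ L} ↔ x ∈ {x | x - c ∈ L} := by rw [hc']
    exact this
  have hne : τ - c ≠ 0 := by
    intro h
    have : τ = c := by linarith
    rw [this] at hτ
    linarith
  have hper : ∀ x, x ∈ L ↔ x + (τ - c) ∈ L := by
    intro x
    have := hs (x + τ)
    rw [show x + τ - τ = x by ring, show x + τ - c = x + (τ - c) by ring] at this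
    exact this
  rcases lt_or_gt_of_ne hne with h | h
  · refine periodic_structure Ω hΩ h0 L hL (-(τ - c)) (by linarith) ?_
    intro x
    have := hper (x + -(τ - c))
    rw [show x + -(τ - c) + (τ - c) = x by ring] at this
    exact this.symm
  · exact periodic_structure Ω hΩ h0 L hL (τ - c) h hper

end Pool.Agent.W703.TL
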